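import Pool.Agent.Helper6.TRI.SDefs
import Pool.Agent.Helper23.TRI.Scal
import Pool.Agent.Helper29.TRI.LamN

/-!
# CV, block C9b: from sequences to the inequality, with an index
-/

set_option autoImplicit false

namespace Pool.Agent.CV

open Module MvPolynomial NumberField Filter Pool.Agent.TRI
open Pool.Agent.Helper64.Vojta (Pl nv sn above)
open Pool.Agent.Chart (fld dg crd hgt val lam)

universe u

private theorem val_smul6 {k : Type u} [Field k] [NumberField k] {N : ℕ} (l : Fin (N + 1) → k) (c : k)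
    (x : Fin (N + 1) → AlgebraicClosure k) : val (fun j => c * l j) x = algebraMap k (fld x) c * val l x := by
  unfold val
  rw [Finset.mul_sum]
  exact Finset.sum_congr rfl fun j _ => by rw [map_mul, mul_assoc]

theorem ineq_of_t {k₀ : Type u} [Field k₀] [NumberField k₀] {N q r : ℕ} (T : ∀ (k : Type u) [Field k], Type u)
    (P : ∀ (k : Type u) [Field k] [NumberField k] [Algebra k₀ k], T k → (Fin q → Fin (N + 1) → k) →
      (Fin (N + 1) → AlgebraicClosure k) → Prop)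
    (hP : ∀ (k : Type u) [Field k] [NumberField k] [Algebra k₀ k] (t : T k) (l : Fin q → Fin (N + 1) → k)
      (x : Fin (N + 1) → AlgebraicClosure k) (c : Fin q → k), (∀ i, c i ≠ 0) → P k t l x → P k t (fun i j => c i * l i j) x)
    (Φ₀ : MvPolynomial (Fin q × Fin (N + 1)) k₀) (h0 : Φ₀ ≠ 0)
    (hno : ∀ (k : Type u) [Field k] [NumberField k] [Algebra k₀ k] (t : T k) (S : Finset (Pl k)) (l : ℕ → Fin q → Fin (N + 1) → k)
      (x : ℕ → Fin (N + 1) → AlgebraicClosure k), (∀ a, aeval (fun p : Fin q × Fin (N + 1) => l a p.1 p.2) Φ₀ ≠ 0) →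
      (∀ a, P k t (l a) (x a)) → ¬ BadS r S l x) :
    ∃ Φ : MvPolynomial (Fin q × Fin (N + 1)) k₀, Φ ≠ 0 ∧
      ∀ (k : Type u) [Field k] [NumberField k] [Algebra k₀ k] (t : T k) (S : Finset (Pl k)), ∃ δ C : ℝ, 0 < δ ∧
      ∀ l : Fin q → Fin (N + 1) → k, aeval (fun p : Fin q × Fin (N + 1) => l p.1 p.2) Φ ≠ 0 →
      ∀ x : Fin (N + 1) → AlgebraicClosure k, (∃ j, x j = 1) → dg x ≤ r → (∀ i, val (l i) x ≠ 0) → P k t l x →
        ∑ ν ∈ S, ∑ i, lamN (l i) ν x ≤ (q - δ) * hgt x + C * (1 + ∑ i, Height.logHeight (l i)) := by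
  classical
  obtain ⟨Φ, T', hΦ, hT, hsc⟩ := scal Φ₀ h0
  refine ⟨Φ, hΦ, fun k _ _ _ τ S => ?_⟩
  by_contra hcon
  push Not at hcon
  choose l hl x hx1 hxr hxl hxP hbig using fun m : ℕ => hcon (1 / ((m : ℝ) + 1)) m (by positivity)
  -- a coordinate of each form
  have hj : ∀ m i, ∃ j, l m i j ≠ 0 := by
    intro m i
    by_contra h
    push Not at h
    apply hxl m i
    unfold val
    exact Finset.sum_eq_zero fun j _ => by rw [h j, map_zero, zero_mul]
  choose J hJ using hj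
  set c : ℕ → Fin q → k := fun m i => (l m i (J m i))⁻¹ with hc
  have hc0 : ∀ m i, c m i ≠ 0 := fun m i => inv_ne_zero (hJ m i)
  have ht : ∀ m, ∃ t ∈ T', aeval (fun p : Fin q × Fin (N + 1) => (t p.1 : k) * (c m p.1 * l m p.1 p.2)) Φ₀ ≠ 0 := by
    intro m
    have h1 := (hsc k (l m) (hl m)).1 (c m) (hc0 m)
    exact (hsc k (fun i j => c m i * l m i j) h1).2
  choose t htT ht0 using ht
  -- pigeonhole
  obtain ⟨t₀, ht₀, hfr⟩ : ∃ t₀ ∈ T', ∃ᶠ m in atTop, t m = t₀ := by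
    by_contra h
    push Not at h
    have h1 : ∀ t₀ ∈ T', ∀ᶠ m in atTop, t m ≠ t₀ := h
    have h2 : ∀ᶠ m in atTop, ∀ t₀ ∈ T', t m ≠ t₀ := by
      rw [Filter.eventually_all_finset]
      exact h1
    obtain ⟨m, hm⟩ := h2.exists
    exact hm (t m) (htT m) rfl
  obtain ⟨ψ, hψ, hψt⟩ := Filter.extraction_of_frequently_atTop hfr
  have htk : ∀ i, (t₀ i : k) ≠ 0 := fun i => Nat.cast_ne_zero.2 (hT t₀ ht₀ i)
  choose B hB using fun i => lamN_le (N := N) S (t₀ i : k) (htk i)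
  set B0 : ℝ := ∑ i, |B i| with hB0
  have hB00 : 0 ≤ B0 := Finset.sum_nonneg fun i _ => abs_nonneg _
  obtain ⟨K, hK⟩ := exists_nat_gt (1 + B0)
  set m : ℕ → ℕ := fun a => ψ (a + K) with hm
  have hma : ∀ a, a + K ≤ m a := fun a => hψ.le_apply
  set l' : ℕ → Fin q → Fin (N + 1) → k := fun a i j => (t₀ i : k) * (c (m a) i * l (m a) i j) with hl'
  have hl'' : ∀ a, l' a = fun i j => ((t₀ i : k) * c (m a) i) * l (m a) i j := by
    intro a
    funext i j
    rw [hl', mul_assoc]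
  have hd0 : ∀ a i, (t₀ i : k) * c (m a) i ≠ 0 := fun a i => mul_ne_zero (htk i) (hc0 _ i)
  refine hno k τ S l' (fun a => x (m a)) ?_ ?_ ?_
  · intro a
    have h1 := ht0 (m a)
    rw [hψt (a + K)] at h1
    exact h1
  · intro a
    rw [hl'']
    exact hP k τ (l (m a)) (x (m a)) (fun i => (t₀ i : k) * c (m a) i) (hd0 a) (hxP (m a))
  have hval : ∀ a i, val (l' a i) (x (m a)) ≠ 0 := by
    intro a i
    rw [hl'']
    show val (fun j => ((t₀ i : k) * c (m a) i) * l (m a) i j) (x (m a)) ≠ 0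
    rw [val_smul6]
    exact mul_ne_zero ((map_ne_zero _).2 (hd0 a i)) (hxl _ i)
  have hnrm : ∀ a i, ∃ j, l' a i j = t₀ i := by
    intro a i
    refine ⟨J (m a) i, ?_⟩
    show (t₀ i : k) * ((l (m a) i (J (m a) i))⁻¹ * l (m a) i (J (m a) i)) = t₀ i
    rw [inv_mul_cancel₀ (hJ _ i), mul_one]
  have hht : ∀ a i, Height.logHeight (l' a i) = Height.logHeight (l (m a) i) := by
    intro a i
    rw [hl'']
    exact Height.logHeight_smul_eq_logHeight (l (m a) i) (hd0 a i)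
  refine ⟨fun a => hx1 _, ⟨fun i => t₀ i, htk, hnrm⟩, fun a => hxr _, hval, fun a => ?_⟩
  have h1 := hbig (m a)
  have h2 : ∑ ν ∈ S, ∑ i, lamN (l (m a) i) ν (x (m a)) ≤ ∑ i, (Height.logHeight (l' a i) + B i) +
      ∑ ν ∈ S, ∑ i, lam (l' a i) ν (x (m a)) := by
    rw [Finset.sum_comm, Finset.sum_comm (s := S) (t := Finset.univ) (f := fun ν i => lam (l' a i) ν (x (m a))),
      ← Finset.sum_add_distrib]
    refine Finset.sum_le_sum fun i _ => ?_
    refine le_trans (le_of_eq ?_) (hB i (l' a i) (hnrm a i) (x (m a)))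
    refine Finset.sum_congr rfl fun ν _ => ?_
    rw [hl'']
    exact (lamN_smul (l (m a) i) _ (hd0 a i) ν (x (m a)) (hxl _ i)).symm
  rw [Finset.sum_add_distrib] at h2
  have h3 : ∑ i, B i ≤ B0 := Finset.sum_le_sum fun i _ => le_abs_self _
  have h4 : ∑ i, Height.logHeight (l' a i) = ∑ i, Height.logHeight (l (m a) i) := Finset.sum_congr rfl fun i _ => hht a i
  have h5 : (0 : ℝ) ≤ ∑ i, Height.logHeight (l (m a) i) := Finset.sum_nonneg fun i _ => Height.logHeight_nonneg _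
  have h6 : (a : ℝ) + K ≤ m a := by exact_mod_cast hma a
  have h7 : 1 / ((m a : ℝ) + 1) ≤ 1 / ((a : ℝ) + 1) := by
    apply one_div_le_one_div_of_le
    · positivity
    · have : (0 : ℝ) ≤ K := Nat.cast_nonneg _
      linarith
  have h8 : 0 ≤ hgt (x (m a)) := by
    unfold hgt
    exact div_nonneg (Height.logHeight_nonneg _) (Nat.cast_nonneg _)
  have h9 := mul_le_mul_of_nonneg_right h7 h8
  rw [h4] at h2 ⊢
  set Hh := hgt (x (m a))
  set L := ∑ i, Height.logHeight (l (m a) i)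
  have h10 : ((a : ℝ) + 1 + B0) * (1 + L) ≤ m a * (1 + L) := mul_le_mul_of_nonneg_right (by linarith) (by linarith)
  have h11 : B0 ≤ B0 * (1 + L) := le_mul_of_one_le_right hB00 (by linarith)
  have h12 : ((q : ℝ) - 1 / ((m a : ℝ) + 1)) * Hh = q * Hh - 1 / ((m a : ℝ) + 1) * Hh := by ring
  have h13 : ((q : ℝ) - 1 / ((a : ℝ) + 1)) * Hh = q * Hh - 1 / ((a : ℝ) + 1) * Hh := by ring
  rw [h12] at h1
  rw [h13]
  nlinarith

end Pool.Agent.CV
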