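import Pool.Agent.Helper6.TRI.SDefs
import Pool.Agent.Helper23.TRI.Scal
import Pool.Agent.Helper29.TRI.LamN

/-!
# CV, block M1: from sequences to the inequality, with an index and a parameter
-/

set_option autoImplicit false

namespace Pool.Agent.CV

open Module MvPolynomial NumberField Filter Pool.Agent.TRI
open Pool.Agent.Helper64.Vojta (Pl nv sn above ev nv_mul nv_nonneg nv_pos le_sn sn_pos log_support fin_support_sn fin_support_nv
  logHeight_eq product_formula_log nv_sum_le nv_sum_le_inr mem_above above_unique card_inf_le)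
open Pool.Agent.Chart (fld dg crd hgt val lam)

universe u

private theorem sum_loc6 {L : Type u} [Field L] [NumberField L] {m : ℕ} (a x : Fin m → L) (ha : a ≠ 0) (hx : x ≠ 0)
    (hax : ev a x ≠ 0) (W : Finset (Pl L)) :
    ∑ w ∈ W, (Real.log (sn w a) + Real.log (sn w x) - Real.log (nv w (ev a x))) ≤ Height.logHeight a + Height.logHeight x +
      Fintype.card (InfinitePlace L) * Real.log ((m + 1 : ℝ) ^ 2) := by
  classical
  set K : ℝ := Real.log ((m + 1 : ℝ) ^ 2) with hK
  have hm0 : (0 : ℝ) ≤ m := Nat.cast_nonneg _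
  have hc1 : (1 : ℝ) ≤ (m + 1 : ℝ) ^ 2 := by nlinarith [sq_nonneg (m : ℝ)]
  have hK0 : 0 ≤ K := Real.log_nonneg hc1
  let t : Pl L → ℝ := fun w => (Real.log (sn w a) + Real.log (sn w x) - Real.log (nv w (ev a x))) +
    (match w with | .inl _ => K | .inr _ => 0)
  have ht : ∀ w, 0 ≤ t w := by
    intro w
    rcases w with w | w
    · have h1 : nv (.inl w) (ev a x) ≤ (m + 1 : ℝ) ^ 2 * (sn (.inl w) a * sn (.inl w) x) := by
        have := nv_sum_le (.inl w) Finset.univ (fun i => a i * x i) (sn (.inl w) a * sn (.inl w) x)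
          (mul_nonneg (sn_pos (.inl w) ha).le (sn_pos (.inl w) hx).le) (fun i _ => by
            rw [nv_mul]
            exact mul_le_mul (le_sn _ _ _) (le_sn _ _ _) (nv_nonneg _ _) (sn_pos (.inl w) ha).le)
        rwa [Finset.card_univ, Fintype.card_fin] at this
      have h2 := Real.log_le_log (nv_pos (.inl w) hax) h1
      rw [Real.log_mul (by positivity) (mul_pos (sn_pos (.inl w) ha) (sn_pos (.inl w) hx)).ne',
        Real.log_mul (sn_pos (.inl w) ha).ne' (sn_pos (.inl w) hx).ne'] at h2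
      change 0 ≤ (Real.log (sn (.inl w) a) + Real.log (sn (.inl w) x) - Real.log (nv (.inl w) (ev a x))) + K
      linarith
    · have h1 : nv (.inr w) (ev a x) ≤ sn (.inr w) a * sn (.inr w) x := by
        refine nv_sum_le_inr w Finset.univ (fun i => a i * x i) _ (mul_nonneg (sn_pos (.inr w) ha).le (sn_pos (.inr w) hx).le)
          (fun i _ => ?_)
        rw [nv_mul]
        exact mul_le_mul (le_sn _ _ _) (le_sn _ _ _) (nv_nonneg _ _) (sn_pos (.inr w) ha).le
      have h2 := Real.log_le_log (nv_pos (.inr w) hax) h1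
      rw [Real.log_mul (sn_pos (.inr w) ha).ne' (sn_pos (.inr w) hx).ne'] at h2
      change 0 ≤ (Real.log (sn (.inr w) a) + Real.log (sn (.inr w) x) - Real.log (nv (.inr w) (ev a x))) + 0
      linarith
  have hsa : (fun w : FinitePlace L => Real.log (sn (.inr w) a)).HasFiniteSupport := log_support _ (fin_support_sn ha)
  have hsx : (fun w : FinitePlace L => Real.log (sn (.inr w) x)).HasFiniteSupport := log_support _ (fin_support_sn hx)
  have hsv : (fun w : FinitePlace L => Real.log (nv (.inr w) (ev a x))).HasFiniteSupport := log_support _ (fin_support_nv hax)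
  have hts : (fun w : FinitePlace L => t (.inr w)).HasFiniteSupport := by
    have e : (fun w : FinitePlace L => t (.inr w))
        = fun w => Real.log (sn (.inr w) a) + Real.log (sn (.inr w) x) - Real.log (nv (.inr w) (ev a x)) := by
      funext w; change _ + (0 : ℝ) = _; rw [add_zero]
    rw [e]
    exact (hsa.add hsx).sub hsv
  have htot : ∑ w : InfinitePlace L, t (.inl w) + ∑ᶠ w : FinitePlace L, t (.inr w)
      = Height.logHeight a + Height.logHeight x + Fintype.card (InfinitePlace L) * K := by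
    have e1 : ∑ w : InfinitePlace L, t (.inl w) = ∑ w : InfinitePlace L, Real.log (sn (.inl w) a) +
        ∑ w : InfinitePlace L, Real.log (sn (.inl w) x)
        - ∑ w : InfinitePlace L, Real.log (nv (.inl w) (ev a x)) + Fintype.card (InfinitePlace L) * K := by
      have : ∀ w : InfinitePlace L, t (.inl w)
          = Real.log (sn (.inl w) a) + Real.log (sn (.inl w) x) - Real.log (nv (.inl w) (ev a x)) + K := fun w => rfl
      simp_rw [this]
      rw [Finset.sum_add_distrib, Finset.sum_sub_distrib, Finset.sum_add_distrib, Finset.sum_const, Finset.card_univ, nsmul_eq_mul]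
    have e2 : ∑ᶠ w : FinitePlace L, t (.inr w) = ∑ᶠ w : FinitePlace L, Real.log (sn (.inr w) a) +
        ∑ᶠ w : FinitePlace L, Real.log (sn (.inr w) x)
        - ∑ᶠ w : FinitePlace L, Real.log (nv (.inr w) (ev a x)) := by
      have hsum : (fun w : FinitePlace L => Real.log (sn (.inr w) a) + Real.log (sn (.inr w) x)).HasFiniteSupport := hsa.add hsx
      rw [← finsum_add_distrib hsa hsx, ← finsum_sub_distrib hsum hsv]
      refine finsum_congr fun w => ?_
      change _ + (0 : ℝ) = _; rw [add_zero]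
    rw [e1, e2, logHeight_eq hx, logHeight_eq ha]
    have := product_formula_log hax
    linarith
  have hWle : ∑ w ∈ W, t w ≤ ∑ w : InfinitePlace L, t (.inl w) + ∑ᶠ w : FinitePlace L, t (.inr w) := by
    rw [← Finset.toLeft_disjSum_toRight (u := W), Finset.sum_disjSum]
    refine add_le_add ?_ ?_
    · exact Finset.sum_le_sum_of_subset_of_nonneg (Finset.subset_univ _) fun w _ _ => ht _
    · have hts' : (Function.support (fun w : FinitePlace L => t (.inr w))).Finite := hts
      rw [finsum_eq_sum_of_support_subset _ (s := hts'.toFinset ∪ W.toRight) (by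
        intro w hw; simp only [Finset.coe_union, Set.mem_union]; left; simpa using hw)]
      exact Finset.sum_le_sum_of_subset_of_nonneg Finset.subset_union_right fun w _ _ => ht _
  have hloc : ∑ w ∈ W, (Real.log (sn w a) + Real.log (sn w x) - Real.log (nv w (ev a x))) ≤ ∑ w ∈ W, t w := by
    refine Finset.sum_le_sum fun w _ => ?_
    rcases w with w | w
    · change (Real.log (sn (.inl w) a) + Real.log (sn (.inl w) x) - Real.log (nv (.inl w) (ev a x))) ≤
        (Real.log (sn (.inl w) a) + Real.log (sn (.inl w) x) - Real.log (nv (.inl w) (ev a x))) + K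
      linarith
    · change (Real.log (sn (.inr w) a) + Real.log (sn (.inr w) x) - Real.log (nv (.inr w) (ev a x))) ≤
        (Real.log (sn (.inr w) a) + Real.log (sn (.inr w) x) - Real.log (nv (.inr w) (ev a x))) + 0
      linarith
  linarith

/-- the proximity is at most the height -/
theorem lamN_sum_le {k : Type u} [Field k] [NumberField k] {N : ℕ} (S : Finset (Pl k)) (l : Fin (N + 1) → k)
    (x : Fin (N + 1) → AlgebraicClosure k) (hx : ∃ j, x j = 1) (hv : val l x ≠ 0) :
    ∑ ν ∈ S, lamN l ν x ≤ Height.logHeight l + hgt x + finrank ℚ k * Real.log ((N + 1 + 1 : ℝ) ^ 2) := by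
  classical
  have hl : l ≠ 0 := by
    rintro rfl
    apply hv
    unfold val
    simp
  have hx0 : crd x ≠ 0 := by
    obtain ⟨j, hj⟩ := hx
    intro h
    have h1 : ((crd x j : fld x) : AlgebraicClosure k) = 0 := by rw [h]; rfl
    have h2 : x j = 0 := h1
    rw [hj] at h2
    exact one_ne_zero h2
  have hdg : (0 : ℝ) < dg x := by
    have h1 : 0 < dg x := Module.finrank_pos
    exact_mod_cast h1
  set a : Fin (N + 1) → fld x := fun i => algebraMap k (fld x) (l i) with ha
  have ha0 : a ≠ 0 := by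
    intro h
    apply hl
    funext i
    have h1 := congrFun h i
    simpa [ha] using h1
  have hev : ev a (crd x) = val l x := rfl
  have h1 := sum_loc6 a (crd x) ha0 hx0 (by rw [hev]; exact hv) (S.biUnion (above (fld x)))
  rw [Finset.sum_biUnion (by
    intro ν _ ν' _ hne
    rw [Function.onFun, Finset.disjoint_left]
    intro w hw hw'
    exact hne (above_unique (mem_above.1 hw) (mem_above.1 hw')))] at h1
  have h2 : ∀ ν ∈ S, ∑ w ∈ above (fld x) ν, (Real.log (sn w a) + Real.log (sn w (crd x)) - Real.log (nv w (ev a (crd x)))) =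
      dg x * lamN l ν x := by
    intro ν _
    have h3 : ∑ w ∈ above (fld x) ν, Real.log (sn w a) = dg x * Real.log (sn ν l) :=
      Pool.Agent.Helper52.Vojta.sum_log_sn (L' := fld x) (Nat.succ_pos N) ν l
    have h4 : ∑ w ∈ above (fld x) ν, (Real.log (sn w a) + Real.log (sn w (crd x)) - Real.log (nv w (ev a (crd x)))) =
        ∑ w ∈ above (fld x) ν, Real.log (sn w a) +
        ∑ w ∈ above (fld x) ν, (Real.log (sn w (crd x)) - Real.log (nv w (ev a (crd x)))) := by
      rw [← Finset.sum_add_distrib]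
      exact Finset.sum_congr rfl fun w _ => by ring
    rw [h4, h3, hev]
    unfold lamN lam
    rw [mul_add, mul_div_cancel₀ _ hdg.ne']
    rfl
  rw [Finset.sum_congr rfl h2, ← Finset.mul_sum] at h1
  have h5 : Height.logHeight a = dg x * Height.logHeight l := Pool.Agent.Helper52.Vojta.logHeight_algebraMap (L' := fld x) hl
  have h6 : Height.logHeight (crd x) = dg x * hgt x := by
    unfold hgt
    rw [mul_div_cancel₀ _ hdg.ne']
  have h7 : (Fintype.card (InfinitePlace (fld x)) : ℝ) ≤ dg x * finrank ℚ k := by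
    have h8 := card_inf_le (fld x)
    have h9 := Module.finrank_mul_finrank ℚ k (fld x)
    have h10 : Fintype.card (InfinitePlace (fld x)) ≤ dg x * finrank ℚ k := by
      refine h8.trans (le_of_eq ?_)
      rw [← h9, mul_comm]
      rfl
    exact_mod_cast h10
  have h11 : 0 ≤ Real.log ((N + 1 + 1 : ℝ) ^ 2) := by
    apply Real.log_nonneg
    have : (0 : ℝ) ≤ N := Nat.cast_nonneg _
    nlinarith
  have h12 := mul_le_mul_of_nonneg_right h7 h11
  rw [h5, h6] at h1
  push_cast at h1
  have h13 : (dg x : ℝ) * ∑ ν ∈ S, lamN l ν x ≤ dg x * (Height.logHeight l + hgt x + finrank ℚ k * Real.log ((N + 1 + 1 : ℝ) ^ 2)) := by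
    nlinarith
  exact le_of_mul_le_mul_left h13 hdg

private theorem val_smul6 {k : Type u} [Field k] [NumberField k] {N : ℕ} (l : Fin (N + 1) → k) (c : k)
    (x : Fin (N + 1) → AlgebraicClosure k) : val (fun j => c * l j) x = algebraMap k (fld x) c * val l x := by
  unfold val
  rw [Finset.mul_sum]
  exact Finset.sum_congr rfl fun j _ => by rw [map_mul, mul_assoc]

theorem ineq_of_m {k₀ : Type u} [Field k₀] [NumberField k₀] {N q r : ℕ} {Θ : Type} (T : Θ → ∀ (k : Type u) [Field k], Type u)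
    (ht : ∀ (τ : Θ) (k : Type u) [Field k] [NumberField k], T τ k → ℝ)
    (hht : ∀ (τ : Θ) (k : Type u) [Field k] [NumberField k] (t : T τ k), 0 ≤ ht τ k t)
    (P : ∀ (τ : Θ) (k : Type u) [Field k] [NumberField k] [Algebra k₀ k], T τ k → (Fin q → Fin (N + 1) → k) →
      (Fin (N + 1) → AlgebraicClosure k) → Prop)
    (hP : ∀ (τ : Θ) (k : Type u) [Field k] [NumberField k] [Algebra k₀ k] (t : T τ k) (l : Fin q → Fin (N + 1) → k)
      (x : Fin (N + 1) → AlgebraicClosure k) (c : Fin q → k), (∀ i, c i ≠ 0) → P τ k t l x → P τ k t (fun i j => c i * l i j) x)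
    (Φ₀ : MvPolynomial (Fin q × Fin (N + 1)) k₀) (h0 : Φ₀ ≠ 0)
    (hno : ∀ (τ : Θ) (k : Type u) [Field k] [NumberField k] [Algebra k₀ k] (S : Finset (Pl k)) (t : ℕ → T τ k)
      (l : ℕ → Fin q → Fin (N + 1) → k) (x : ℕ → Fin (N + 1) → AlgebraicClosure k),
      (∀ a, aeval (fun p : Fin q × Fin (N + 1) => l a p.1 p.2) Φ₀ ≠ 0) → (∀ a, P τ k (t a) (l a) (x a)) →
      (∀ η : ℝ, 0 < η → ∀ᶠ a in atTop, ht τ k (t a) ≤ η * hgt (x a)) → ¬ BadS r S l x) :
    ∃ Φ : MvPolynomial (Fin q × Fin (N + 1)) k₀, Φ ≠ 0 ∧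
      ∀ (τ : Θ) (k : Type u) [Field k] [NumberField k] [Algebra k₀ k] (S : Finset (Pl k)), ∃ δ C : ℝ, 0 < δ ∧
      ∀ (t : T τ k) (l : Fin q → Fin (N + 1) → k), aeval (fun p : Fin q × Fin (N + 1) => l p.1 p.2) Φ ≠ 0 →
      ∀ x : Fin (N + 1) → AlgebraicClosure k, (∃ j, x j = 1) → dg x ≤ r → (∀ i, val (l i) x ≠ 0) → P τ k t l x →
        ∑ ν ∈ S, ∑ i, lamN (l i) ν x ≤ (q - δ) * hgt x + C * (1 + ∑ i, Height.logHeight (l i) + ht τ k t) := by
  classical
  obtain ⟨Φ, T', hΦ, hT, hsc⟩ := scal Φ₀ h0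
  refine ⟨Φ, hΦ, fun τ k _ _ _ S => ?_⟩
  by_contra hcon
  push Not at hcon
  choose tt l hl x hx1 hxr hxl hxP hbig using fun m : ℕ => hcon (1 / ((m : ℝ) + 1)) m (by positivity)
  -- a coordinate of each form
  have hj : ∀ m i, ∃ j, l m i j ≠ 0 := by
    intro m i
    by_contra h
    push Not at h
    apply hxl m i
    unfold val
    exact Finset.sum_eq_zero fun j _ => by rw [h j, map_zero, zero_mul]
  choose J hJ using hj
  set c : ℕ → Fin q → k := fun m i => (l m i (J m i))⁻¹ with hc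
  have hc0 : ∀ m i, c m i ≠ 0 := fun m i => inv_ne_zero (hJ m i)
  have ht' : ∀ m, ∃ t ∈ T', aeval (fun p : Fin q × Fin (N + 1) => (t p.1 : k) * (c m p.1 * l m p.1 p.2)) Φ₀ ≠ 0 := by
    intro m
    have h1 := (hsc k (l m) (hl m)).1 (c m) (hc0 m)
    exact (hsc k (fun i j => c m i * l m i j) h1).2
  choose t htT ht0 using ht'
  -- pigeonhole
  obtain ⟨t₀, ht₀, hfr⟩ : ∃ t₀ ∈ T', ∃ᶠ m in atTop, t m = t₀ := by
    by_contra h
    push Not at h
    have h1 : ∀ t₀ ∈ T', ∀ᶠ m in atTop, t m ≠ t₀ := h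
    have h2 : ∀ᶠ m in atTop, ∀ t₀ ∈ T', t m ≠ t₀ := by
      rw [Filter.eventually_all_finset]
      exact h1
    obtain ⟨m, hm⟩ := h2.exists
    exact hm (t m) (htT m) rfl
  obtain ⟨ψ, hψ, hψt⟩ := Filter.extraction_of_frequently_atTop hfr
  have htk : ∀ i, (t₀ i : k) ≠ 0 := fun i => Nat.cast_ne_zero.2 (hT t₀ ht₀ i)
  choose B hB using fun i => lamN_le (N := N) S (t₀ i : k) (htk i)
  set B0 : ℝ := ∑ i, |B i| with hB0
  have hB00 : 0 ≤ B0 := Finset.sum_nonneg fun i _ => abs_nonneg _
  set C0 : ℝ := q * (finrank ℚ k * Real.log ((N + 1 + 1 : ℝ) ^ 2)) with hC0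
  have hlog : 0 ≤ Real.log ((N + 1 + 1 : ℝ) ^ 2) := by
    apply Real.log_nonneg
    have : (0 : ℝ) ≤ N := Nat.cast_nonneg _
    nlinarith
  have hC00 : 0 ≤ C0 := by positivity
  obtain ⟨K, hK⟩ := exists_nat_gt (1 + B0 + C0)
  set m : ℕ → ℕ := fun a => ψ (a + K) with hm
  have hma : ∀ a, a + K ≤ m a := fun a => hψ.le_apply
  have hht0 : ∀ m, 0 ≤ ht τ k (tt m) := fun m => hht τ k (tt m)
  set l' : ℕ → Fin q → Fin (N + 1) → k := fun a i j => (t₀ i : k) * (c (m a) i * l (m a) i j) with hl'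
  have hl'' : ∀ a, l' a = fun i j => ((t₀ i : k) * c (m a) i) * l (m a) i j := by
    intro a
    funext i j
    rw [hl', mul_assoc]
  have hd0 : ∀ a i, (t₀ i : k) * c (m a) i ≠ 0 := fun a i => mul_ne_zero (htk i) (hc0 _ i)
  have hL0 : ∀ m, (0 : ℝ) ≤ ∑ i, Height.logHeight (l m i) := fun m => Finset.sum_nonneg fun i _ => Height.logHeight_nonneg _
  have h8 : ∀ m, 0 ≤ hgt (x m) := by
    intro m
    unfold hgt
    exact div_nonneg (Height.logHeight_nonneg _) (Nat.cast_nonneg _)
  refine hno τ k S (fun a => tt (m a)) l' (fun a => x (m a)) ?_ ?_ ?_ ?_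
  · intro a
    have h1 := ht0 (m a)
    rw [hψt (a + K)] at h1
    exact h1
  · intro a
    rw [hl'']
    exact hP τ k (tt (m a)) (l (m a)) (x (m a)) (fun i => (t₀ i : k) * c (m a) i) (hd0 a) (hxP (m a))
  · -- the heights of the parameters
    intro η hη
    obtain ⟨A, hA⟩ := exists_nat_gt (1 / η)
    refine (Filter.eventually_ge_atTop A).mono fun a ha => ?_
    have h1 := hbig (m a)
    have h2 : ∑ ν ∈ S, ∑ i, lamN (l (m a) i) ν (x (m a)) ≤ ∑ i, Height.logHeight (l (m a) i) + q * hgt (x (m a)) + C0 := by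
      rw [Finset.sum_comm]
      refine (Finset.sum_le_sum fun i _ => lamN_sum_le S (l (m a) i) (x (m a)) (hx1 _) (hxl _ i)).trans (le_of_eq ?_)
      rw [Finset.sum_add_distrib, Finset.sum_add_distrib, Finset.sum_const, Finset.sum_const, Finset.card_univ, Fintype.card_fin,
        nsmul_eq_mul, nsmul_eq_mul]
    have h3 : ((q : ℝ) - 1 / ((m a : ℝ) + 1)) * hgt (x (m a)) = q * hgt (x (m a)) - 1 / ((m a : ℝ) + 1) * hgt (x (m a)) := by ring
    rw [h3] at h1
    set Hh := hgt (x (m a))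
    set L := ∑ i, Height.logHeight (l (m a) i)
    set Tt := ht τ k (tt (m a))
    have hL : 0 ≤ L := hL0 _
    have hTt : 0 ≤ Tt := hht0 _
    have hH : 0 ≤ Hh := h8 _
    have h6 : (a : ℝ) + K ≤ m a := by exact_mod_cast hma a
    have haA : (A : ℝ) ≤ a := by exact_mod_cast ha
    have hKm : 1 + B0 + C0 < m a := by linarith [(Nat.cast_nonneg a : (0 : ℝ) ≤ a)]
    -- m (1 + L + T) < H / (m+1) + L + C0
    have h9 : (m a : ℝ) * (1 + L + Tt) < 1 / ((m a : ℝ) + 1) * Hh + L + C0 := by linarith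
    have h10 : L ≤ (m a : ℝ) * L := by nlinarith
    have h11 : (m a : ℝ) * Tt ≤ 1 / ((m a : ℝ) + 1) * Hh := by nlinarith
    have h12 : Tt ≤ (m a : ℝ) * Tt := by nlinarith
    have h13 : 1 / ((m a : ℝ) + 1) ≤ η := by
      rw [div_le_iff₀ (by positivity)]
      have h14 : 1 / η < m a + 1 := by linarith [(Nat.cast_nonneg K : (0 : ℝ) ≤ K)]
      rw [div_lt_iff₀ hη] at h14
      nlinarith
    have h15 := mul_le_mul_of_nonneg_right h13 hH
    linarith
  have hval : ∀ a i, val (l' a i) (x (m a)) ≠ 0 := by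
    intro a i
    rw [hl'']
    show val (fun j => ((t₀ i : k) * c (m a) i) * l (m a) i j) (x (m a)) ≠ 0
    rw [val_smul6]
    exact mul_ne_zero ((map_ne_zero _).2 (hd0 a i)) (hxl _ i)
  have hnrm : ∀ a i, ∃ j, l' a i j = t₀ i := by
    intro a i
    refine ⟨J (m a) i, ?_⟩
    show (t₀ i : k) * ((l (m a) i (J (m a) i))⁻¹ * l (m a) i (J (m a) i)) = t₀ i
    rw [inv_mul_cancel₀ (hJ _ i), mul_one]
  have hht' : ∀ a i, Height.logHeight (l' a i) = Height.logHeight (l (m a) i) := by
    intro a i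
    rw [hl'']
    exact Height.logHeight_smul_eq_logHeight (l (m a) i) (hd0 a i)
  refine ⟨fun a => hx1 _, ⟨fun i => t₀ i, htk, hnrm⟩, fun a => hxr _, hval, fun a => ?_⟩
  have h1 := hbig (m a)
  have h2 : ∑ ν ∈ S, ∑ i, lamN (l (m a) i) ν (x (m a)) ≤ ∑ i, (Height.logHeight (l' a i) + B i) +
      ∑ ν ∈ S, ∑ i, lam (l' a i) ν (x (m a)) := by
    rw [Finset.sum_comm, Finset.sum_comm (s := S) (t := Finset.univ) (f := fun ν i => lam (l' a i) ν (x (m a))),
      ← Finset.sum_add_distrib]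
    refine Finset.sum_le_sum fun i _ => ?_
    refine le_trans (le_of_eq ?_) (hB i (l' a i) (hnrm a i) (x (m a)))
    refine Finset.sum_congr rfl fun ν _ => ?_
    rw [hl'']
    exact (lamN_smul (l (m a) i) _ (hd0 a i) ν (x (m a)) (hxl _ i)).symm
  rw [Finset.sum_add_distrib] at h2
  have h3 : ∑ i, B i ≤ B0 := Finset.sum_le_sum fun i _ => le_abs_self _
  have h4 : ∑ i, Height.logHeight (l' a i) = ∑ i, Height.logHeight (l (m a) i) := Finset.sum_congr rfl fun i _ => hht' a i
  have h5 := hL0 (m a)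
  have h6 : (a : ℝ) + K ≤ m a := by exact_mod_cast hma a
  have h7 : 1 / ((m a : ℝ) + 1) ≤ 1 / ((a : ℝ) + 1) := by
    apply one_div_le_one_div_of_le
    · positivity
    · have : (0 : ℝ) ≤ K := Nat.cast_nonneg _
      linarith
  have h9 := mul_le_mul_of_nonneg_right h7 (h8 (m a))
  have h16 := hht0 (m a)
  rw [h4] at h2 ⊢
  set Hh := hgt (x (m a))
  set L := ∑ i, Height.logHeight (l (m a) i)
  set Tt := ht τ k (tt (m a))
  have h17 : (0 : ℝ) ≤ (m a : ℝ) * Tt := mul_nonneg (Nat.cast_nonneg _) h16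
  have h10 : ((a : ℝ) + 1 + B0) * (1 + L) ≤ m a * (1 + L) := mul_le_mul_of_nonneg_right (by linarith) (by linarith)
  have h11 : B0 ≤ B0 * (1 + L) := le_mul_of_one_le_right hB00 (by linarith)
  have h12 : ((q : ℝ) - 1 / ((m a : ℝ) + 1)) * Hh = q * Hh - 1 / ((m a : ℝ) + 1) * Hh := by ring
  have h13 : ((q : ℝ) - 1 / ((a : ℝ) + 1)) * Hh = q * Hh - 1 / ((a : ℝ) + 1) * Hh := by ring
  have h14 : (m a : ℝ) * (1 + L + Tt) = m a * (1 + L) + m a * Tt := by ring
  rw [h12, h14] at h1
  rw [h13]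
  nlinarith

end Pool.Agent.CV
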