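import Pool.Agent.Helper42.CV.Ineq
import Pool.Agent.Helper23.CV.Ver
import Pool.Agent.Helper29.TRI.VerAr

/-!
# CV, block C10c: sections of degree `d`
-/

set_option autoImplicit false

namespace Pool.Agent.CV

open Module MvPolynomial NumberField Filter Pool.Agent.TRI
open Pool.Agent.Helper64.Vojta (Pl nv sn above)
open Pool.Agent.Chart (fld dg crd hgt val lam)

universe u

theorem out_cv {k₀ : Type u} [Field k₀] [NumberField k₀] {N n q r d : ℕ} (hd : 1 ≤ d) (hq : 2 * r < q)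
    (hnum : n * (d + 1) + d * (2 * r) ≤ d * (q + 1)) {I : Ideal (MvPolynomial (Fin (N + 1)) k₀)} (hX : Vty n I) :
    ∃ Φ : MvPolynomial (Fin q × Sym (Fin (N + 1)) d) k₀, Φ ≠ 0 ∧
      ∀ (k : Type u) [Field k] [NumberField k] [Algebra k₀ k] (J : Ideal (MvPolynomial (Fin (N + 1)) k)), Vty 1 J →
      ∀ (S : Finset (Pl k)), ∃ δ C : ℝ, 0 < δ ∧
      ∀ g : Fin q → Sym (Fin (N + 1)) d → k, aeval (fun p : Fin q × Sym (Fin (N + 1)) d => g p.1 p.2) Φ ≠ 0 →
      ∀ x : Fin (N + 1) → AlgebraicClosure k, (∃ j, x j = 1) → OnX I x → OnX J x → dg x ≤ r → (∀ i, valS (g i) x ≠ 0) →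
        ∑ ν ∈ S, ∑ i, (Real.log (⨆ s, nv ν (g i s)) + lamS (g i) ν x) ≤
          (q * d - δ) * hgt x + C * (1 + ∑ i, Height.logHeight (g i)) := by
  obtain ⟨N', e, hver⟩ := ver_cv (k₀ := k₀) (N := N) hd
  obtain ⟨I', hI', hS, hon⟩ := hver k₀ I
  obtain ⟨Φ, hΦ, hfin⟩ := ineq_cv (hI' n hX) hd hS hq hnum
  refine ⟨rename (fun p : Fin q × Fin (N' + 1) => (p.1, e p.2)) Φ, ?_, ?_⟩
  · intro h0
    apply hΦ
    apply rename_injective (fun p : Fin q × Fin (N' + 1) => (p.1, e p.2))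
    · rintro ⟨a, b⟩ ⟨a', b'⟩ hab
      rw [Prod.mk.injEq] at hab
      exact Prod.ext hab.1 (e.injective hab.2)
    · rw [h0, map_zero]
  · intro k _ _ _ J hJ S
    obtain ⟨J', hJ', -, honJ⟩ := hver k J
    obtain ⟨δ, C, hδ, hin⟩ := hfin k J' (hJ' 1 hJ) S
    have hd0 : (0 : ℝ) < d := by exact_mod_cast hd
    refine ⟨δ * d, C, mul_pos hδ hd0, fun g hg x h1 h2 h2' h3 h4 => ?_⟩
    rw [aeval_rename] at hg
    obtain ⟨a1, a2, a3, a4⟩ := ver_ar (k := k) hd e x h1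
    have h5 := hin (fun i j => g i (e j)) hg (ver e x) a1 (a2.le.trans h3) (fun i hi => h4 i (((a4 (g i)).1).1 hi)) (hon _ x h2)
      (honJ _ x h2')
    have h6 : ∑ ν ∈ S, ∑ i, lamN (fun j => g i (e j)) ν (ver e x) =
        ∑ ν ∈ S, ∑ i, (Real.log (⨆ s, nv ν (g i s)) + lamS (g i) ν x) := by
      refine Finset.sum_congr rfl fun ν _ => Finset.sum_congr rfl fun i _ => ?_
      unfold lamN
      rw [(a4 (g i)).2 ν, e.iSup_comp (g := fun s => nv ν (g i s))]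
    have h7 : ∑ i, Height.logHeight (fun j => g i (e j)) = ∑ i, Height.logHeight (g i) :=
      Finset.sum_congr rfl fun i _ => Height.logHeight_comp_equiv e (g i)
    rw [h6, h7, a3] at h5
    refine h5.trans (le_of_eq ?_)
    ring

end Pool.Agent.CV
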